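import Pool.Agent.P.MP_f981b0_an.CD.P0a
import Pool.Agent.P.MP_49c4d9_an.TC.Red

set_option autoImplicit false

open scoped InnerProductSpace ComplexConjugate
open Filter Topology

noncomputable section

namespace Pool.Agent.P.MP_49c4d9_an.CD

open Pool.Agent.P.MP_f981b0_an.CD

variable {H : Type*} [NormedAddCommGroup H] [InnerProductSpace ℂ H] [CompleteSpace H]

theorem adj_zero_of_zero {T : H →L[ℂ] H} (hr : PBR.Red T) {x : H} (hx : T x = 0) :
    star T x = 0 := by
  have h1 := hr T.ker T.isClosed_ker (fun y hy => by
    have h2 : T y = 0 := hy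
    change T (T y) = 0
    rw [h2, map_zero]) x hx
  have h2 : T (star T x) = 0 := h1
  rw [← inner_self_eq_zero (𝕜 := ℂ), ← P0.inner_star_mul, star_star, mul_apply_eq_comp, h2,
    inner_zero_right]

/-- A reductive operator with compact defect has a compact self-commutator. -/
theorem compact_comm {T : H →L[ℂ] H} (hr : PBR.Red T)
    (hK : IsCompactOperator ((1 - star T * T : H →L[ℂ] H) : H → H)) :
    IsCompactOperator ((star T * T - T * star T : H →L[ℂ] H) : H → H) := by
  have := T.isClosed_ker.completeSpace_coe
  set P := T.ker.starProjection with hP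
  have hPs : star P = P := (isSelfAdjoint_starProjection _).star_eq
  have hPP : P * P = P := T.ker.isIdempotentElem_starProjection
  have hTP : T * P = 0 := ContinuousLinearMap.ext fun x => T.ker.starProjection_apply_mem x
  have hTP' : star T * P = 0 := ContinuousLinearMap.ext fun x =>
    adj_zero_of_zero hr (T.ker.starProjection_apply_mem x)
  have hPT : P * T = 0 := by simpa [hPs] using congrArg star hTP'
  have hPT' : P * star T = 0 := by simpa [hPs] using congrArg star hTP
  have hPc : IsCompactOperator P := by
    have h1 : P = (1 - star T * T) * P := by rw [sub_mul, mul_assoc, hTP]; simp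
    rw [h1]
    exact hK.comp_clm P
  have hinj : ∀ A : H →L[ℂ] H, P * A = 0 → (∀ x, A x = 0 → T x = 0) →
      ∀ x, (A + P) x = 0 → x = 0 := fun A hA hA' x hx => by
    have h1 : P x = 0 := by
      have h2 : P * (A + P) = P := by rw [mul_add, hA, hPP, zero_add]
      rw [← h2, mul_apply_eq_comp, hx, map_zero]
    have h3 : A x = 0 := by simpa [h1] using hx
    rw [← h1]
    exact (Submodule.starProjection_eq_self_iff.2 (hA' x h3)).symm
  obtain ⟨u, hu⟩ : IsUnit (T + P) := by
    refine P0.isUnit_of_defect ?_ (hinj T hPT fun _ h => h) fun y hy => ?_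
    · have h1 : 1 - star (T + P) * (T + P) = (1 - star T * T) - P := by
        rw [star_add, hPs, add_mul, mul_add, mul_add, hTP', hPT, hPP]; abel
      rw [h1]
      exact hK.sub hPc
    · rw [star_add, hPs] at hy
      refine hinj (star T) hPT' (fun x hx => ?_) y hy
      have h1 : star (star T) x = 0 := adj_zero_of_zero (T := star T) hr.adj hx
      rwa [star_star] at h1
  have h1 : star T * T - T * star T =
      (T * (1 - star T * T) + P) * ((u⁻¹ : (H →L[ℂ] H)ˣ) : H →L[ℂ] H) - (1 - star T * T) := by
    have h2 : T * (1 - star T * T) + P = (1 - T * star T) * u := by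
      rw [hu, mul_add, sub_mul _ _ P, mul_assoc _ _ P, hTP']; noncomm_ring
    rw [h2, mul_assoc, Units.mul_inv]
    noncomm_ring
  rw [h1]
  exact (((hK.clm_comp T).add hPc).comp_clm ((u⁻¹ : (H →L[ℂ] H)ˣ) : H →L[ℂ] H)).sub hK

end Pool.Agent.P.MP_49c4d9_an.CD
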